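import Pool.Agent.Q171.DG.Fin

/-!
# `Ext^{s,t} = 0` for the mod 2 Steenrod algebra as soon as `α(t) > s` and `α(t) ≥ 2 s - 1`

The cobar complex of the mod 2 dual Steenrod algebra is written exactly as in the frozen statement
`S14069`: cochains of cohomological degree `s` are the polynomials in the variables `X (i, n)`,
`i < s` (the conjugate or Milnor generator of degree `2 ^ (n + 1) - 1` in the `i`-th bar slot), and
the differential is the sum of the `s + 2` cofaces.

If the number of ones in the binary expansion of `t` is larger than `s` and at least `2 s - 1`,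
then every cocycle of internal degree `t` in cohomological degree `s` is a coboundary.
-/

set_option autoImplicit false
open MvPolynomial

namespace Pool.Agent.Results.MP_dbb2d3_gt.TwiceTheLine

theorem result :
    ∀ s t : ℕ, s < (Nat.digits 2 t).count 1 → 2 * s ≤ (Nat.digits 2 t).count 1 + 1 →
      ∀ p : MvPolynomial (ℕ × ℕ) (ZMod 2),
        p ∈ MvPolynomial.supported (ZMod 2) {v : ℕ × ℕ | v.1 < s} →
        MvPolynomial.IsWeightedHomogeneous (fun v : ℕ × ℕ => 2 ^ (v.2 + 1) - 1) p t →
        (MvPolynomial.aeval (fun v : ℕ × ℕ => (X (v.1 + 1, v.2) : MvPolynomial (ℕ × ℕ) (ZMod 2))) p + p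
          + ∑ m ∈ Finset.range s,
              MvPolynomial.aeval (fun v : ℕ × ℕ =>
                if v.1 < m then (X v : MvPolynomial (ℕ × ℕ) (ZMod 2))
                else if v.1 = m then
                  ∑ a ∈ Finset.range (v.2 + 2),
                    (if a = v.2 + 1 then (1 : MvPolynomial (ℕ × ℕ) (ZMod 2)) else X (m, v.2 - a)) ^ (2 ^ a)
                      * (if a = 0 then (1 : MvPolynomial (ℕ × ℕ) (ZMod 2)) else X (m + 1, a - 1))
                else X (v.1 + 1, v.2)) p = 0) →
        (p = 0 ∨ ∃ n : ℕ, s = n + 1 ∧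
          ∃ q ∈ MvPolynomial.supported (ZMod 2) {v : ℕ × ℕ | v.1 < n},
            MvPolynomial.aeval (fun v : ℕ × ℕ => (X (v.1 + 1, v.2) : MvPolynomial (ℕ × ℕ) (ZMod 2))) q + q
              + ∑ m ∈ Finset.range n,
                  MvPolynomial.aeval (fun v : ℕ × ℕ =>
                    if v.1 < m then (X v : MvPolynomial (ℕ × ℕ) (ZMod 2))
                    else if v.1 = m then
                      ∑ a ∈ Finset.range (v.2 + 2),
                        (if a = v.2 + 1 then (1 : MvPolynomial (ℕ × ℕ) (ZMod 2)) else X (m, v.2 - a)) ^ (2 ^ a)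
                          * (if a = 0 then (1 : MvPolynomial (ℕ × ℕ) (ZMod 2)) else X (m + 1, a - 1))
                    else X (v.1 + 1, v.2)) q = p) :=
  fun s t h1 h2 p hp hw hd => Pool.Agent.Q171.DG.van s t h1 h2 p hp hw hd

end Pool.Agent.Results.MP_dbb2d3_gt.TwiceTheLine
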